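import Pool.Agent.Helper65.HF.StC

/-! Project HF, module EXT -/

namespace Pool.Agent.Helper60.HF

open Pool.Agent.Helper65.HF

private theorem le_getLastD {p : List ℕ} (hp : Srt p) {x : ℕ} (hx : x ∈ p) :
    x ≤ p.getLastD 0 := by
  have hne : p ≠ [] := List.ne_nil_of_mem hx
  obtain ⟨q, b, rfl⟩ : ∃ q b, p = q ++ [b] := by
    rcases List.eq_nil_or_concat p with h | ⟨q, b, h⟩
    · exact absurd h hne
    · exact ⟨q, b, by rw [h]; simp⟩
  have h1 : (q ++ [b]).getLastD 0 = b := by simp
  rw [h1]
  rcases List.mem_append.1 hx with h | h
  · exact (List.pairwise_append.1 hp).2.2 x h b (List.mem_singleton_self b)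
  · rw [List.mem_singleton.1 h]

theorem hEXT : Pool.Agent.Helper65.HF.sEXT := by
  intro M n ν St hExt i t
  induction t with
  | zero =>
    intro _ p _ hSt τ hτ
    rw [mem_tl] at hτ
    have : τ = [] := List.length_eq_zero_iff.1 hτ.1.1
    rw [this, List.append_nil]
    exact hSt
  | succ t ih =>
    intro hn p hp hSt τ hτ
    rw [mem_tl] at hτ
    obtain ⟨⟨hlen, hsort, hM⟩, ha, hν⟩ := hτ
    rcases List.eq_nil_or_concat τ with h | ⟨σ, b, h⟩
    · rw [h] at hlen
      simp at hlen
    · have h' : τ = σ ++ [b] := by rw [h]; simp
      subst h'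
      have hσl : σ.length = t := by
        rw [List.length_append, List.length_singleton] at hlen
        omega
      obtain ⟨hs1, _, hs3⟩ := List.pairwise_append.1 hsort
      have hσ : σ ∈ tl M ν i t (p.getLastD 0) := by
        rw [mem_tl]
        refine ⟨⟨hσl, hs1, fun x hx => hM x (List.mem_append_left _ hx)⟩,
          fun x hx => ha x (List.mem_append_left _ hx), ?_⟩
        intro u hu
        have h1 := hν u (by omega)
        rwa [List.getD_append _ _ _ _ (by omega)] at h1
      have hStσ := ih (by omega) p hp hSt σ hσ
      have hp' := mem_srt.1 hp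
      have hb : b < M := hM b (by simp)
      have hab : p.getLastD 0 ≤ b := ha b (by simp)
      have hνb : ν (i + t + 1) ≤ b := by
        have h1 := hν t (by omega)
        rw [List.getD_append_right _ _ _ _ (by omega), hσl, Nat.sub_self] at h1
        simpa using h1
      have hmem : p ++ σ ∈ srt M (i + t) := by
        rw [mem_srt]
        refine ⟨by rw [List.length_append, hp'.1, hσl], ?_, ?_⟩
        · refine List.pairwise_append.2 ⟨hp'.2.1, hs1, ?_⟩
          intro x hx y hy
          exact (le_getLastD hp'.2.1 hx).trans (ha y (List.mem_append_left _ hy))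
        · intro x hx
          rcases List.mem_append.1 hx with h1 | h1
          · exact hp'.2.2 x h1
          · exact hM x (List.mem_append_left _ h1)
      have hall : ∀ x ∈ p ++ σ, x ≤ b := by
        intro x hx
        rcases List.mem_append.1 hx with h1 | h1
        · exact (le_getLastD hp'.2.1 h1).trans hab
        · exact hs3 x h1 b (List.mem_singleton_self b)
      have h2 := hExt (i + t) (by omega) (p ++ σ) hmem b hb hall hνb hStσ
      rwa [List.append_assoc] at h2

end Pool.Agent.Helper60.HF
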